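import Pool.Agent.W811.LW.Stm

/-! One step inequality, dual vectors (project LW of MP_e56372_nt). -/

set_option autoImplicit false

open Finset Filter Topology
open scoped ENNReal

namespace Pool.Agent.W581.LW

open Pool.Agent.W811.LW

theorem et_pos (G : ℝ) (hG : 0 < G) (i : ℤ) : 0 < et G i := by
  unfold et
  split_ifs
  · positivity
  · positivity

theorem rs_nonneg (y : ℝ) : 0 ≤ rs y := inv_nonneg.2 (Real.sqrt_nonneg y)

theorem rs_le (y y' D : ℝ) (hD : 1 ≤ D) (hy : 0 < y) (hy' : 0 < y') (h : y ≤ 2 * D ^ 2 * y') :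
    rs y' ≤ 2 * D * rs y := by
  unfold rs
  have h1 : 0 < Real.sqrt y := Real.sqrt_pos.2 hy
  have h2 : 0 < Real.sqrt y' := Real.sqrt_pos.2 hy'
  have h3 : Real.sqrt y ≤ 2 * D * Real.sqrt y' := by
    apply Real.sqrt_le_iff.2
    refine ⟨by positivity, ?_⟩
    rw [mul_pow, Real.sq_sqrt hy'.le]
    nlinarith [mul_pos (pow_pos (by linarith : (0 : ℝ) < D) 2) hy']
  rw [inv_eq_one_div, div_le_iff₀ h2]
  calc (1 : ℝ) = Real.sqrt y * (Real.sqrt y)⁻¹ := (mul_inv_cancel₀ h1.ne').symm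
    _ ≤ (2 * D * Real.sqrt y') * (Real.sqrt y)⁻¹ :=
        mul_le_mul_of_nonneg_right h3 (inv_nonneg.2 h1.le)
    _ = _ := by ring

theorem rs_G (G : ℝ) (hG : 1000 ≤ G) : 16 * rs (G ^ 4) ≤ 1 / 48 := by
  unfold rs
  have h1 : Real.sqrt (G ^ 4) = G ^ 2 := by
    rw [show G ^ 4 = (G ^ 2) ^ 2 by ring, Real.sqrt_sq (by positivity)]
  rw [h1, ← div_eq_mul_inv, div_le_iff₀ (by positivity)]
  nlinarith

theorem zp (D : ℝ) (hD : 0 < D) (a b : ℕ) :
    D ^ (-2 * ((a : ℤ) - (b : ℤ))) = D ^ (2 * b) / D ^ (2 * a) := by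
  rw [show (-2 * ((a : ℤ) - (b : ℤ))) = ((2 * b : ℕ) : ℤ) - ((2 * a : ℕ) : ℤ) by push_cast; ring,
    zpow_sub₀ hD.ne', zpow_natCast, zpow_natCast]

theorem sw1 (h : CLW1) (hp : POS) (hd : DWL) (hk : KERN) : SW1 := by
  intro G c0 hG hc0 hc1
  have hGr : (1000 : ℝ) ≤ G := by exact_mod_cast hG
  have hG0 : (0 : ℝ) < G := by linarith
  have hD1 : (1 : ℝ) ≤ (G : ℝ) ^ 4 := one_le_pow₀ (by linarith)
  have hD10 : (1 : ℝ) ≤ ((G : ℝ) ^ 4) ^ 10 := one_le_pow₀ hD1
  have hD4 : (1 : ℝ) ≤ ((G : ℝ) ^ 4) ^ 4 := one_le_pow₀ hD1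
  have hDn : 2 ≤ G ^ 4 := by
    calc 2 ≤ G := by omega
      _ ≤ G ^ 4 := Nat.le_self_pow (by norm_num) G
  obtain ⟨M, hM0, hM⟩ := hk G (c0 / (1024 * ((G : ℝ) ^ 4) ^ 10)) (128 * ((G : ℝ) ^ 4) ^ 10)
    (16 * ((G : ℝ) ^ 4) ^ 4) (2 * (G : ℝ) ^ 4) hG (by positivity) (by linarith) (by linarith)
    (by linarith)
  refine ⟨M, hM0, fun α β j t hα hβ => ?_⟩
  have hpos : ∀ (β' : ℝ) (t' m : ℕ), 0 < yV ((G : ℝ) ^ 4) α j t' β' m ∧
      0 < yW ((G : ℝ) ^ 4) α j t' β' m := by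
    intro β' t' m
    have := hp (G ^ 4) α c0 β' j t' m hDn hc0 hα
    push_cast at this
    exact this.2.2
  set T : ℕ → ℝ := fun m => (1 / ((G : ℝ) ^ 4) ^ 2) * ∑ d ∈ range ((G ^ 4) ^ 2),
    et G ((j : ℤ) - (m : ℤ)) *
      rs (yW ((G : ℝ) ^ 4) α j (t + 1) (β + (d : ℝ) / ((G : ℝ) ^ 4) ^ (2 * (j + t) + 2)) m)
    with hT
  have hinj : Function.Injective (fun m : ℕ => (j : ℤ) - (m : ℤ)) := by
    intro a b hab
    simp only at hab
    omega
  have hcard : (((G ^ 4) ^ 2 : ℕ) : ℝ) = ((G : ℝ) ^ 4) ^ 2 := by push_cast; ring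
  have hmain := hM (fun m : ℕ => (j : ℤ) - (m : ℤ)) (fun m : ℕ => (m : ℤ) - (j : ℤ))
    (fun m => yW ((G : ℝ) ^ 4) α j t β m) (fun m => yV ((G : ℝ) ^ 4) α j t β m) T hinj
    (fun m => (hpos β t m).2) (fun m => (hpos β t m).1) (by
      intro m
      have hcl := h (G ^ 4) c0 α β j t m hDn hc0 hα
      have het := et_pos (G : ℝ) hG0 ((j : ℤ) - (m : ℤ))
      have hT' : T m = et G ((j : ℤ) - (m : ℤ)) * ((∑ d ∈ range ((G ^ 4) ^ 2),
          rs (yW ((G : ℝ) ^ 4) α j (t + 1)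
            (β + (d : ℝ) / ((G : ℝ) ^ 4) ^ (2 * (j + t) + 2)) m)) / ((G : ℝ) ^ 4) ^ 2) := by
        rw [hT]
        simp only
        rw [← Finset.mul_sum]
        ring
      have hDD : (0 : ℝ) < ((G : ℝ) ^ 4) ^ 2 := by positivity
      push_cast at hcl
      obtain ⟨hcl1, hcl2⟩ := hcl
      rcases hcl2 with h1 | ⟨v, hv, w, hw, hcr, hv2, hw2⟩
      · left
        rw [hT']
        have h2 : (∑ d ∈ range ((G ^ 4) ^ 2),
          rs (yW ((G : ℝ) ^ 4) α j (t + 1)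
            (β + (d : ℝ) / ((G : ℝ) ^ 4) ^ (2 * (j + t) + 2)) m)) / ((G : ℝ) ^ 4) ^ 2 ≤
            16 * rs ((G : ℝ) ^ 4) * rs (yW ((G : ℝ) ^ 4) α j t β m) := by
          rw [div_le_iff₀ hDD]
          linarith
        have h3 := mul_le_mul_of_nonneg_right (rs_G (G : ℝ) hGr)
          (rs_nonneg (yW ((G : ℝ) ^ 4) α j t β m))
        calc _ ≤ et G ((j : ℤ) - (m : ℤ)) * ((1 / 48) * rs (yW ((G : ℝ) ^ 4) α j t β m)) :=
              mul_le_mul_of_nonneg_left (h2.trans h3) het.le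
          _ = _ := by ring
      · right
        constructor
        · rw [hT']
          have h2 : (∑ d ∈ range ((G ^ 4) ^ 2),
            rs (yW ((G : ℝ) ^ 4) α j (t + 1)
              (β + (d : ℝ) / ((G : ℝ) ^ 4) ^ (2 * (j + t) + 2)) m)) / ((G : ℝ) ^ 4) ^ 2 ≤
              2 * (G : ℝ) ^ 4 * rs (yW ((G : ℝ) ^ 4) α j t β m) := by
            rw [div_le_iff₀ hDD]
            calc _ ≤ ∑ _d ∈ range ((G ^ 4) ^ 2),
                  2 * (G : ℝ) ^ 4 * rs (yW ((G : ℝ) ^ 4) α j t β m) := by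
                  refine Finset.sum_le_sum fun d hd' => ?_
                  have h4 := hcl1 d (Finset.mem_range.1 hd')
                  exact rs_le _ _ _ hD1 (hpos β t m).2 h4.1 h4.2
              _ = _ := by
                  rw [Finset.sum_const, Finset.card_range, nsmul_eq_mul, hcard]
                  ring
          calc _ ≤ et G ((j : ℤ) - (m : ℤ)) *
                (2 * (G : ℝ) ^ 4 * rs (yW ((G : ℝ) ^ 4) α j t β m)) :=
                mul_le_mul_of_nonneg_left h2 het.le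
            _ = _ := by ring
        · have hdw := hd (G ^ 4) c0 α β j t m (yW ((G : ℝ) ^ 4) α j t β m) v w hDn hc0 hc1
            (hpos β t m).2 (by push_cast; exact hv) (by push_cast; exact hw) hcr
            (by push_cast; exact hv2) (by push_cast; exact hw2)
          push_cast at hdw
          rcases hdw with h5 | ⟨m', h6, h7⟩
          · left
            rw [zp _ (by positivity)]
            exact h5
          · right
            refine ⟨m', ?_, ?_⟩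
            · rw [zp _ (by positivity)]
              exact h6
            · rw [zp _ (by positivity)]
              exact h7)
  have hsum : ∑ d ∈ range ((G ^ 4) ^ 2),
      FW G α j (t + 1) (β + (d : ℝ) / ((G : ℝ) ^ 4) ^ (2 * (j + t) + 2)) =
      (((G ^ 4) ^ 2 : ℕ) : ℝ≥0∞) * ∑' m, ENNReal.ofReal (T m) := by
    unfold FW
    rw [← Summable.tsum_finsetSum (fun i _ => ENNReal.summable), ← ENNReal.tsum_mul_left]
    refine tsum_congr fun m => ?_
    have het := et_pos (G : ℝ) hG0 ((j : ℤ) - (m : ℤ))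
    rw [← ENNReal.ofReal_sum_of_nonneg (fun d _ => mul_nonneg het.le (rs_nonneg _)),
      ← ENNReal.ofReal_natCast, ← ENNReal.ofReal_mul (Nat.cast_nonneg _), hT]
    congr 1
    simp only
    rw [hcard]
    field_simp
  rw [hsum]
  refine mul_le_mul_right ?_ _
  unfold FV FW
  refine hmain.trans (le_of_eq ?_)
  ring

end Pool.Agent.W581.LW
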